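import Pool.Agent.V11246.Rj

/-!
# A model of ZF for the conjunction of the two statements

The model is a symmetric extension of a countable elementary substructure of the sets of Lean. The
conditions are countable partial functions from `(columns × Ω) × Ω` to the power set of `ω` of the
ground model, where `Ω` is a well-order of type `ω₁`. The columns are the pairs of a natural
number (the level) and a finite set of natural numbers (a vector over the field with two
elements), and the group of the columns is generated by the transvections of the levels. In the
extension every totally bounded set can be well-ordered, `Ω` injects into every well-orderable
uncountable set, and the power set of `ω` injects into `Ω`. Transvections move the columns of each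
level, so that the countable sets of the nonzero columns of the levels have no multiple choice
function, and there is no sequence of tournaments on the levels.
-/

namespace Pool.Agent.Results.MP_5b7390_lc.PhiFourPhiFive

open FirstOrder FirstOrder.Language
open Pool.Agent.Helper672.Plain (LSet)
open Pool.Agent.H635Amen (ZF)
open Pool.Agent.V11246 (IDI WOACfin MCR CACCM CPMC CMCw)

/-- There is a model of ZF in which every infinite set is Dedekind-infinite, every well-orderable
family of nonempty finite sets has a choice function and the set of the real numbers injects into
every uncountable compact metrizable space, but some sequence of nonempty compact metrizable
spaces has no choice function, some countable product of compact metrizable spaces is not compact,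
and some denumerable family of denumerable sets has no multiple choice function. -/
theorem result : ∃ (N : Type 1) (_ : LSet.Structure N), ZF N ∧ (IDI N ∧ WOACfin N ∧ MCR N) ∧
    ¬ CACCM N ∧ ¬ CPMC N ∧ ¬ CMCw N := by
  obtain ⟨N, hL, hZ, h1, h2, h3, h4, h5, h6⟩ := Pool.Agent.Helper672.ZFA.V246X.exists_r
  exact ⟨N, hL, hZ, ⟨h1, h2, h3⟩, h4, h5, h6⟩

end Pool.Agent.Results.MP_5b7390_lc.PhiFourPhiFive
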